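import Mathlib.LinearAlgebra.FreeModule.PID
import Mathlib.RingTheory.Flat.TorsionFree
import Mathlib.Data.Int.Star
import Mathlib.Algebra.Order.Ring.Star
import Mathlib.RingTheory.PicardGroup
import Mathlib.Analysis.CStarAlgebra.Classes
import Mathlib.NumberTheory.LegendreSymbol.QuadraticChar.Basic
import Mathlib.Topology.Compactification.OnePoint.ProjectiveLine
import Mathlib.RingTheory.TotallySplit
import Mathlib.RingTheory.Etale.Weakly
import Pool.Agent.MP_21a573_al.Defs

-- ======== part 0: formerly Pool.Agent.MP_21a573_al.Radicals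
section MrgPart0

/-!
The unipotent radicals are the conjugates of the upper unitriangular group.
-/

open scoped MatrixGroups
open Matrix

namespace Pool.Agent.MP_21a573_al

variable {F : Type*} [Field F]

/-- The upper unitriangular matrix with corner entry `x`. -/
def up (x : F) : GL (Fin 2) F := GeneralLinearGroup.upperRightHom x

lemma up_val (x : F) : (up x).1 = !![1, x; 0, 1] := rfl

/-- The conjugate of `up x` by `h`, in `PGL_2`. -/
def conjU (h : GL (Fin 2) F) (x : F) : PGL(2, F) := ProjGenLinGroup.mk (h * up x * h⁻¹)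

lemma conjU_injective (h : GL (Fin 2) F) : Function.Injective (conjU h) := by
  intro x y hxy
  have h1 : ProjGenLinGroup.mk (up x) = ProjGenLinGroup.mk (up y) := by
    simp only [conjU, map_mul, map_inv] at hxy
    simpa using hxy
  obtain ⟨u, hu⟩ := ProjGenLinGroup.mk_eq_mk_iff.1 h1
  have hu' := congrArg (fun g : GL (Fin 2) F => g.1) hu
  simp only [Units.val_mul, up_val, GeneralLinearGroup.coe_scalar] at hu'
  have h00 := congrFun (congrFun hu' 0) 0
  have h01 := congrFun (congrFun hu' 0) 1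
  simp [Matrix.mul_apply, Matrix.diagonal] at h00 h01
  rw [h00] at h01
  simpa using h01

lemma inv_mulVec_mulVec (h : GL (Fin 2) F) (v : Fin 2 → F) :
    (h⁻¹).1.mulVec (h.1.mulVec v) = v := by
  rw [Matrix.mulVec_mulVec, ← Units.val_mul]; simp

lemma mulVec_inv_mulVec (h : GL (Fin 2) F) (v : Fin 2 → F) :
    h.1.mulVec ((h⁻¹).1.mulVec v) = v := by
  rw [Matrix.mulVec_mulVec, ← Units.val_mul]; simp

lemma unipRad_eq (h : GL (Fin 2) F) :
    unipRad F (Submodule.span F {h.1.mulVec ![1, 0]}) = Set.range (conjU h) := by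
  ext u
  constructor
  · rintro ⟨g, rfl, h1, h2⟩
    have e1 : g.1.mulVec (h.1.mulVec ![1, 0]) = h.1.mulVec ![1, 0] :=
      h2 _ (Submodule.mem_span_singleton_self _)
    obtain ⟨c, hc⟩ := Submodule.mem_span_singleton.1 (h1 (h.1.mulVec ![0, 1]))
    refine ⟨c, ?_⟩
    have key : (h⁻¹ * g * h) = up c := by
      have a1 : (h⁻¹ * g * h).1.mulVec ![1, 0] = ![1, 0] := by
        simp only [Units.val_mul, ← Matrix.mulVec_mulVec]
        rw [e1, inv_mulVec_mulVec]
      have a2 : (h⁻¹ * g * h).1.mulVec ![0, 1] = ![c, 1] := by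
        simp only [Units.val_mul, ← Matrix.mulVec_mulVec]
        have : g.1.mulVec (h.1.mulVec ![0, 1]) = h.1.mulVec (![c, 1]) := by
          have e : (![c, 1] : Fin 2 → F) = c • ![1, 0] + ![0, 1] := by
            ext i; fin_cases i <;> simp
          rw [e, Matrix.mulVec_add, Matrix.mulVec_smul, hc]; abel
        rw [this, inv_mulVec_mulVec]
      apply Units.ext
      rw [up_val]
      have b0 := congrFun a1 0
      have b1 := congrFun a1 1
      have b2 := congrFun a2 0
      have b3 := congrFun a2 1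
      generalize (h⁻¹ * g * h).1 = M at b0 b1 b2 b3 ⊢
      simp [Matrix.mulVec, dotProduct, Fin.sum_univ_two] at b0 b1 b2 b3
      ext i j
      fin_cases i <;> fin_cases j <;> simp [b0, b1, b2, b3]
    unfold conjU
    rw [← key]
    congr 1
    group
  · rintro ⟨x, rfl⟩
    refine ⟨h * up x * h⁻¹, rfl, ?_, ?_⟩
    · intro v
      obtain ⟨w, rfl⟩ : ∃ w, v = h.1.mulVec w := ⟨_, (mulVec_inv_mulVec h v).symm⟩
      simp only [Units.val_mul, ← Matrix.mulVec_mulVec]
      rw [inv_mulVec_mulVec, ← Matrix.mulVec_sub, Submodule.mem_span_singleton]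
      refine ⟨x * w 1, ?_⟩
      rw [← Matrix.mulVec_smul]
      congr 1
      ext i; fin_cases i <;> simp [up_val, dotProduct, Fin.sum_univ_two]
    · intro v hv
      obtain ⟨c, rfl⟩ := Submodule.mem_span_singleton.1 hv
      simp only [Units.val_mul, ← Matrix.mulVec_mulVec, Matrix.mulVec_smul]
      rw [inv_mulVec_mulVec]
      congr 2
      ext i; fin_cases i <;> simp [up_val, Matrix.mulVec, dotProduct, Fin.sum_univ_two]

lemma finrank_span_col (h : GL (Fin 2) F) :
    Module.finrank F (Submodule.span F {h.1.mulVec ![1, 0]}) = 1 := by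
  apply finrank_span_singleton
  intro h0
  have := inv_mulVec_mulVec h ![1, 0]
  rw [h0, Matrix.mulVec_zero] at this
  simpa using congrFun this 0

lemma exists_col (l : Submodule F (Fin 2 → F)) (hl : Module.finrank F l = 1) :
    ∃ h : GL (Fin 2) F, l = Submodule.span F {h.1.mulVec ![1, 0]} := by
  obtain ⟨v, hv0, hv⟩ := finrank_eq_one_iff'.1 hl
  have hl' : l = Submodule.span F {(v : Fin 2 → F)} := by
    apply le_antisymm
    · intro w hw
      obtain ⟨c, hc⟩ := hv ⟨w, hw⟩
      rw [Submodule.mem_span_singleton]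
      exact ⟨c, congrArg Subtype.val hc⟩
    · rw [Submodule.span_singleton_le_iff_mem]; exact v.2
  have hv1 : (v : Fin 2 → F) ≠ 0 := fun h => hv0 (Subtype.ext h)
  by_cases h0 : (v : Fin 2 → F) 0 = 0
  · have h1 : (v : Fin 2 → F) 1 ≠ 0 := by
      intro h1; apply hv1; ext i; fin_cases i <;> simp [h0, h1]
    refine ⟨GeneralLinearGroup.mkOfDetNeZero !![0, 1; (v : Fin 2 → F) 1, 0]
      (by simp [Matrix.det_fin_two, h1]), ?_⟩
    refine hl'.trans ?_
    congr 2
    ext i; fin_cases i <;> simp [h0, Matrix.mulVec, dotProduct, Fin.sum_univ_two]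
  · refine ⟨GeneralLinearGroup.mkOfDetNeZero !![(v : Fin 2 → F) 0, 0; (v : Fin 2 → F) 1, 1]
      (by simp [Matrix.det_fin_two, h0]), ?_⟩
    refine hl'.trans ?_
    congr 2
    ext i; fin_cases i <;> simp [Matrix.mulVec, dotProduct, Fin.sum_univ_two]

lemma mem_unipRadicals_iff (U : Set PGL(2, F)) :
    U ∈ unipRadicals F ↔ ∃ h : GL (Fin 2) F, U = Set.range (conjU h) := by
  constructor
  · rintro ⟨l, hl, rfl⟩
    obtain ⟨h, rfl⟩ := exists_col l hl
    exact ⟨h, unipRad_eq h⟩
  · rintro ⟨h, rfl⟩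
    exact ⟨_, finrank_span_col h, (unipRad_eq h).symm⟩

lemma finsum_range_conjU [Fintype F] (h : GL (Fin 2) F) (f : Set.range (conjU h) → ℂ) :
    ∑ᶠ u, f u = ∑ x : F, f ⟨conjU h x, ⟨x, rfl⟩⟩ := by
  rw [← finsum_eq_sum_of_fintype]
  exact (finsum_comp_equiv (Equiv.ofInjective _ (conjU_injective h)) (f := f)).symm

end Pool.Agent.MP_21a573_al

end MrgPart0

-- ======== part 1: formerly Pool.Agent.MP_21a573_al.Closure
section MrgPart1

/-!
The closure of the regular unipotent class of `PGL_2`.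
-/

open scoped MatrixGroups
open Matrix

namespace Pool.Agent.MP_21a573_al

/-- The discriminant of the characteristic polynomial. -/
def disc {K : Type*} [Field K] (M : Matrix (Fin 2) (Fin 2) K) : K := M.trace ^ 2 - 4 * M.det

lemma disc_smul {K : Type*} [Field K] (c : K) (M : Matrix (Fin 2) (Fin 2) K) :
    disc (c • M) = c ^ 2 * disc M := by
  simp [disc, Matrix.trace_fin_two, Matrix.det_fin_two]; ring

lemma val_eq_smul_of_mk_eq {K : Type*} [Field K] {g h : GL (Fin 2) K}
    (e : ProjGenLinGroup.mk g = ProjGenLinGroup.mk h) : ∃ c : K, c ≠ 0 ∧ h.1 = c • g.1 := by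
  obtain ⟨u, hu⟩ := ProjGenLinGroup.mk_eq_mk_iff.1 e
  refine ⟨u, u.ne_zero, ?_⟩
  rw [← hu]
  ext i j
  simp [Matrix.mul_apply, Matrix.diagonal, mul_comm]

lemma mk_eq_of_val_eq_smul {K : Type*} [Field K] {g h : GL (Fin 2) K} {c : K} (hc : c ≠ 0)
    (e : h.1 = c • g.1) : ProjGenLinGroup.mk g = ProjGenLinGroup.mk h := by
  rw [ProjGenLinGroup.mk_eq_mk_iff]
  refine ⟨Units.mk0 c hc, Units.ext ?_⟩
  rw [e]
  ext i j
  simp [Matrix.mul_apply, Matrix.diagonal, mul_comm]

lemma trace_conj' {K : Type*} [Field K] (h : GL (Fin 2) K) (M : Matrix (Fin 2) (Fin 2) K) :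
    (h.1 * M * (h⁻¹).1).trace = M.trace := by
  rw [Matrix.trace_mul_cycle, ← Units.val_mul]; simp

lemma det_conj'' {K : Type*} [Field K] (h : GL (Fin 2) K) (M : Matrix (Fin 2) (Fin 2) K) :
    (h.1 * M * (h⁻¹).1).det = M.det := by
  have : h.1.det * (h⁻¹).1.det = 1 := by
    rw [← Matrix.det_mul, ← Units.val_mul]; simp
  rw [Matrix.det_mul, Matrix.det_mul]
  linear_combination M.det * this

lemma disc_conj {K : Type*} [Field K] (h : GL (Fin 2) K) (M : Matrix (Fin 2) (Fin 2) K) :
    disc (h.1 * M * (h⁻¹).1) = disc M := by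
  simp only [disc, trace_conj', det_conj'']

lemma regUnip_eq (K : Type*) [Field K] : regUnip K = ProjGenLinGroup.mk (up (1 : K)) := by
  unfold regUnip
  congr 1
  apply Units.ext
  rfl

lemma disc_eq_zero_of_isConj {K : Type*} [Field K] (h : GL (Fin 2) K)
    (hh : IsConj (regUnip K) (ProjGenLinGroup.mk h)) : disc h.1 = 0 := by
  obtain ⟨c, hc⟩ := isConj_iff.1 hh
  obtain ⟨c, rfl⟩ := ProjGenLinGroup.mk_surjective c
  rw [regUnip_eq, ← map_inv, ← map_mul, ← map_mul] at hc
  obtain ⟨s, -, hs⟩ := val_eq_smul_of_mk_eq hc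
  rw [hs, disc_smul, Units.val_mul, Units.val_mul, disc_conj]
  simp [disc, up_val, Matrix.trace_fin_two, Matrix.det_fin_two]
  norm_num

lemma subset_zariskiClosure {K : Type*} [Field K] (S : Set PGL(2, K)) : S ⊆ zariskiClosure S := by
  intro y hy
  obtain ⟨g, rfl⟩ := ProjGenLinGroup.mk_surjective y
  exact ⟨g, MvPolynomial.zeroLocus_vanishingIdeal_le _ ⟨g, hy, rfl⟩, rfl⟩

lemma disc_eq_zero_of_mem_zariskiClosure {K : Type*} [Field K] (g : GL (Fin 2) K)
    (hg : ProjGenLinGroup.mk g ∈ zariskiClosure {y | IsConj (regUnip K) y}) : disc g.1 = 0 := by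
  obtain ⟨g', hg', e⟩ := hg
  obtain ⟨s, -, hs⟩ := val_eq_smul_of_mk_eq e
  let P : MvPolynomial (Fin 2 × Fin 2) K :=
    (MvPolynomial.X (0, 0) + MvPolynomial.X (1, 1)) ^ 2 -
      4 * (MvPolynomial.X (0, 0) * MvPolynomial.X (1, 1) -
        MvPolynomial.X (0, 1) * MvPolynomial.X (1, 0))
  have hP : ∀ h : GL (Fin 2) K, MvPolynomial.aeval (entries h) P = disc h.1 := by
    intro h
    simp [P, disc, entries, Matrix.trace_fin_two, Matrix.det_fin_two, map_ofNat]
  have h0 : disc g'.1 = 0 := by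
    rw [← hP]
    apply hg'
    rintro _ ⟨h, hh, rfl⟩
    rw [hP]
    exact disc_eq_zero_of_isConj h hh
  rw [hs, disc_smul, h0, mul_zero]

variable {F : Type*} [Field F]

lemma disc_eq_zero_of_mem_classClosure (g : GL (Fin 2) F)
    (hg : ProjGenLinGroup.mk g ∈ classClosure F (regUnip (AlgebraicClosure F))) :
    disc g.1 = 0 := by
  have h1 := disc_eq_zero_of_mem_zariskiClosure
    (GeneralLinearGroup.map (algebraMap F (AlgebraicClosure F)) g) hg
  apply (algebraMap F (AlgebraicClosure F)).injective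
  rw [map_zero, ← h1]
  simp [disc, Matrix.trace_fin_two, Matrix.det_fin_two, map_ofNat]

lemma mem_classClosure_of_isConj (y : PGL(2, F)) (hy : IsConj (regUnip F) y) :
    y ∈ classClosure F (regUnip (AlgebraicClosure F)) := by
  apply subset_zariskiClosure
  have : ProjGenLinGroup.map (algebraMap F (AlgebraicClosure F)) (regUnip F) =
      regUnip (AlgebraicClosure F) := by
    rw [regUnip_eq, regUnip_eq, ProjGenLinGroup.map_mk]
    congr 1
    apply Units.ext
    ext i j
    fin_cases i <;> fin_cases j <;> simp [up_val]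
  rw [← this]
  exact (ProjGenLinGroup.map (algebraMap F (AlgebraicClosure F))).map_isConj hy

end Pool.Agent.MP_21a573_al

end MrgPart1

-- ======== part 2: formerly Pool.Agent.MP_21a573_al.Twisted
section MrgPart2

/-!
A function on `PGL_2(F)` that transforms under conjugation by the quadratic character of the
determinant.
-/

open scoped MatrixGroups
open Matrix

namespace Pool.Agent.MP_21a573_al

variable {F : Type*} [Field F] [Fintype F] [DecidableEq F]

/-- The standard alternating form on `F^2`. -/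
def om (v w : Fin 2 → F) : F := v 0 * w 1 - v 1 * w 0

omit [Fintype F] [DecidableEq F] in
lemma om_mulVec (H : Matrix (Fin 2) (Fin 2) F) (v w : Fin 2 → F) :
    om (H.mulVec v) (H.mulVec w) = H.det * om v w := by
  simp [om, Matrix.mulVec, dotProduct, Fin.sum_univ_two, Matrix.det_fin_two]; ring

/-- The twisted function on matrices. -/
def tw (M : Matrix (Fin 2) (Fin 2) F) : ℤ :=
  ∑ v : Fin 2 → F, quadraticChar F (2 * M.trace * om v (M.mulVec v))

lemma tw_smul {c : F} (hc : c ≠ 0) (M : Matrix (Fin 2) (Fin 2) F) : tw (c • M) = tw M := by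
  unfold tw
  refine Finset.sum_congr rfl fun v _ => ?_
  have : 2 * (c • M).trace * om v ((c • M).mulVec v) =
      c ^ 2 * (2 * M.trace * om v (M.mulVec v)) := by
    simp [om, Matrix.smul_mulVec]; ring
  rw [this, map_mul, quadraticChar_sq_one' hc, one_mul]

lemma tw_conj (h : GL (Fin 2) F) (M : Matrix (Fin 2) (Fin 2) F) :
    tw (h.1 * M * (h⁻¹).1) = quadraticChar F h.1.det * tw M := by
  unfold tw
  rw [Finset.mul_sum]
  let e : (Fin 2 → F) ≃ (Fin 2 → F) :=
    ⟨fun v => h.1.mulVec v, fun v => (h⁻¹).1.mulVec v, inv_mulVec_mulVec h, mulVec_inv_mulVec h⟩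
  rw [← Equiv.sum_comp e]
  refine Finset.sum_congr rfl fun v _ => ?_
  rw [← map_mul, trace_conj']
  congr 1
  show 2 * M.trace * om (h.1.mulVec v) ((h.1 * M * (h⁻¹).1).mulVec (h.1.mulVec v)) = _
  rw [← Matrix.mulVec_mulVec, ← Matrix.mulVec_mulVec, inv_mulVec_mulVec, om_mulVec]
  ring

/-- The twisted function on `PGL_2(F)`. -/
noncomputable def twP (y : PGL(2, F)) : ℤ := tw (ProjGenLinGroup.mk_surjective y).choose.1

lemma twP_mk (g : GL (Fin 2) F) : twP (ProjGenLinGroup.mk g) = tw g.1 := by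
  obtain ⟨c, hc, e⟩ := val_eq_smul_of_mk_eq
    (ProjGenLinGroup.mk_surjective (ProjGenLinGroup.mk g)).choose_spec
  unfold twP
  rw [e, tw_smul hc]

lemma sum_tw_upper (hF : ringChar F ≠ 2) (a b : F) (ha : a ≠ 0) :
    ∑ x : F, tw !![a, a * x + b; 0, a] = 0 := by
  unfold tw
  rw [Finset.sum_comm]
  refine Finset.sum_eq_zero fun v _ => ?_
  have : ∀ x : F, 2 * (!![a, a * x + b; 0, a] : Matrix (Fin 2) (Fin 2) F).trace *
      om v ((!![a, a * x + b; 0, a] : Matrix (Fin 2) (Fin 2) F).mulVec v) =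
      (-(4 * a * v 1 ^ 2)) * (a * x + b) := by
    intro x
    simp [om, Matrix.mulVec, dotProduct, Fin.sum_univ_two, Matrix.trace_fin_two]; ring
  simp only [this, map_mul]
  rw [← Finset.mul_sum]
  let e : F ≃ F := (Equiv.mulLeft₀ a ha).trans (Equiv.addRight b)
  have h2 : ∑ x : F, quadraticChar F (a * x + b) = ∑ x : F, quadraticChar F x :=
    Equiv.sum_comp e (fun x => quadraticChar F x)
  rw [h2, quadraticChar_sum_zero hF, mul_zero]

/-- The twisted function lies in the weak space of the unipotent variety. -/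
lemma twP_mem_weakSpace (hF : ringChar F ≠ 2) :
    (fun y => (twP y.1 : ℂ)) ∈
      weakSpace F (classClosure F (regUnip (AlgebraicClosure F))) := by
  intro g U hU hsub
  obtain ⟨h, rfl⟩ := (mem_unipRadicals_iff U).1 hU
  obtain ⟨g, rfl⟩ := ProjGenLinGroup.mk_surjective g
  rw [finsum_range_conjU]
  have h2 : (2 : F) ≠ 0 := Ring.two_ne_zero hF
  set k : GL (Fin 2) F := h⁻¹ * g * h with hk
  have e : ∀ x : F, ProjGenLinGroup.mk g * conjU h x =
      ProjGenLinGroup.mk (h * (k * up x) * h⁻¹) := by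
    intro x
    rw [conjU, ← map_mul, hk]
    congr 1
    group
  have hd : ∀ x : F, disc (k.1 * !![1, x; 0, 1]) = 0 := by
    intro x
    have := hsub _ ⟨x, rfl⟩
    rw [e] at this
    have := disc_eq_zero_of_mem_classClosure _ this
    rwa [Units.val_mul, Units.val_mul, disc_conj, Units.val_mul, up_val] at this
  have hdet : k.1.det ≠ 0 := k.det_ne_zero
  have d0 := hd 0
  have d1 := hd 1
  have d2 := hd (-1)
  simp [disc, Matrix.trace_fin_two, Matrix.det_fin_two, Matrix.mul_apply, Fin.sum_univ_two]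
    at d0 d1 d2
  have hc : k.1 1 0 = 0 := by
    have : 2 * k.1 1 0 ^ 2 = 0 := by linear_combination d1 + d2 - 2 * d0
    simpa [h2] using this
  have had : k.1 1 1 = k.1 0 0 := by
    rw [hc] at d0
    have : (k.1 1 1 - k.1 0 0) ^ 2 = 0 := by linear_combination d0
    exact sub_eq_zero.1 (pow_eq_zero_iff two_ne_zero |>.1 this)
  have ha : k.1 0 0 ≠ 0 := by
    intro ha
    apply hdet
    rw [Matrix.det_fin_two, hc, ha]; ring
  have hm : ∀ x : F, (k * up x).1 = !![k.1 0 0, k.1 0 0 * x + k.1 0 1; 0, k.1 0 0] := by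
    intro x
    rw [Units.val_mul, up_val]
    ext i j
    fin_cases i <;> fin_cases j <;> simp [Matrix.mul_apply, Fin.sum_univ_two, hc, had]
  have : ∀ x : F, (twP (ProjGenLinGroup.mk g * conjU h x) : ℂ) =
      (quadraticChar F h.1.det : ℂ) *
        (tw !![k.1 0 0, k.1 0 0 * x + k.1 0 1; 0, k.1 0 0] : ℤ) := by
    intro x
    rw [e, twP_mk, Units.val_mul, Units.val_mul, tw_conj, hm]
    push_cast
    rfl
  simp only [this]
  rw [← Finset.mul_sum, ← Int.cast_sum, sum_tw_upper hF _ _ ha]
  simp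

end Pool.Agent.MP_21a573_al

end MrgPart2

-- ======== part 3: formerly Pool.Agent.MP_21a573_al.NoExtension
section MrgPart3

/-!
For `q` congruent to 1 modulo 4 the twisted function on the unipotent variety does not extend
to a cuspidal function.
-/

open scoped MatrixGroups
open Matrix

namespace Pool.Agent.MP_21a573_al

variable {F : Type*} [Field F] [Fintype F] [DecidableEq F]

/-- The Weyl element. -/
def wl (F : Type*) [Field F] : GL (Fin 2) F :=
  GeneralLinearGroup.mkOfDetNeZero !![0, 1; -1, 0] (by simp [Matrix.det_fin_two])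

omit [Fintype F] [DecidableEq F] in
lemma wl_up_val (x : F) : (wl F * up x).1 = !![0, 1; -1, -x] := by
  rw [Units.val_mul, up_val]
  ext i j
  fin_cases i <;> fin_cases j <;> simp [wl, Matrix.mul_apply, Fin.sum_univ_two]

/-- The average of `φ` over a conjugacy class against the quadratic character of the
determinant. -/
noncomputable def avg (φ : PGL(2, F) → ℂ) (g : GL (Fin 2) F) : ℂ :=
  ∑ h : GL (Fin 2) F, (quadraticChar F h.1.det : ℂ) * φ (ProjGenLinGroup.mk (h * g * h⁻¹))

lemma sum_avg_eq_zero {φ : PGL(2, F) → ℂ} (hφ : IsCuspidal F φ) (g : GL (Fin 2) F) :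
    ∑ x : F, avg φ (g * up x) = 0 := by
  unfold avg
  rw [Finset.sum_comm]
  refine Finset.sum_eq_zero fun h _ => ?_
  rw [← Finset.mul_sum]
  have := hφ (ProjGenLinGroup.mk (h * g * h⁻¹)) _ ((mem_unipRadicals_iff _).2 ⟨h, rfl⟩)
  rw [finsum_range_conjU] at this
  have e : ∀ x : F, ProjGenLinGroup.mk (h * (g * up x) * h⁻¹) =
      ProjGenLinGroup.mk (h * g * h⁻¹) * conjU h x := by
    intro x
    rw [conjU, ← map_mul]
    congr 1
    group
  simp only [e]
  rw [this, mul_zero]

lemma avg_eq_zero_of_comm (φ : PGL(2, F) → ℂ) (g c : GL (Fin 2) F) (hc : c * g = g * c)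
    (hd : quadraticChar F c.1.det = -1) : avg φ g = 0 := by
  have : avg φ g = -avg φ g := by
    conv_lhs => unfold avg
    rw [← Equiv.sum_comp (Equiv.mulRight c)]
    unfold avg
    rw [← Finset.sum_neg_distrib]
    refine Finset.sum_congr rfl fun h _ => ?_
    have e : h * c * g * (h * c)⁻¹ = h * g * h⁻¹ := by
      rw [mul_assoc h c g, hc]; group
    simp only [Equiv.coe_mulRight, e, Units.val_mul, Matrix.det_mul, map_mul, hd]
    push_cast
    ring
  linear_combination (1 / 2 : ℂ) * this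

lemma exists_comm (hF : ringChar F ≠ 2) (x : F) (hx : x ^ 2 ≠ 4) :
    ∃ c : GL (Fin 2) F, c * (wl F * up x) = (wl F * up x) * c ∧
      quadraticChar F c.1.det = -1 := by
  obtain ⟨ν, hν⟩ := quadraticChar_exists_neg_one hF
  have h2 : (2 : F) ≠ 0 := Ring.two_ne_zero hF
  have hν0 : ν ≠ 0 := by
    rintro rfl
    simp at hν
  have hD : (4 - x ^ 2 : F) ≠ 0 := fun h => hx (by linear_combination -h)
  have hcard : Fintype.card F % 2 = 1 := FiniteField.odd_card_of_char_ne_two hF
  obtain ⟨s, b, hsb⟩ := FiniteField.exists_root_sum_quadratic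
    (f := (Polynomial.X ^ 2 : Polynomial F))
    (g := Polynomial.C (4 - x ^ 2) * Polynomial.X ^ 2 - Polynomial.C (4 * ν))
    (by simp) (by
      rw [Polynomial.degree_sub_C] <;> rw [Polynomial.degree_C_mul_X_pow _ hD] <;> norm_num)
    hcard
  simp at hsb
  have hdet : (!![(s + x * b) / 2, b; -b, (s + x * b) / 2 - x * b] :
      Matrix (Fin 2) (Fin 2) F).det = ν := by
    rw [Matrix.det_fin_two]
    simp
    field_simp
    linear_combination hsb
  refine ⟨GeneralLinearGroup.mkOfDetNeZero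
    !![(s + x * b) / 2, b; -b, (s + x * b) / 2 - x * b] (hdet ▸ hν0), ?_, ?_⟩
  · apply Units.ext
    rw [Units.val_mul, Units.val_mul (wl F * up x), wl_up_val]
    ext i j
    fin_cases i <;> fin_cases j <;> simp [Matrix.mul_apply, Fin.sum_univ_two] <;> ring
  · rw [← hν]
    exact congrArg (quadraticChar F) hdet

omit [Fintype F] [DecidableEq F] in
lemma isConj_wl_up (x : F) (hx : x ^ 2 = 4) :
    IsConj (regUnip F) (ProjGenLinGroup.mk (wl F * up x)) := by
  have : (x - 2) * (x + 2) = 0 := by linear_combination hx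
  rw [isConj_iff, regUnip_eq]
  rcases mul_eq_zero.1 this with h | h
  · have hx2 : x = 2 := sub_eq_zero.1 h
    let k : GL (Fin 2) F := ⟨!![-1, 0; 1, 1], !![-1, 0; 1, 1],
      by simp [one_fin_two], by simp [one_fin_two]⟩
    refine ⟨ProjGenLinGroup.mk k, ?_⟩
    rw [← map_inv, ← map_mul, ← map_mul]
    apply mk_eq_of_val_eq_smul (c := -1) (by simp)
    rw [wl_up_val, hx2, Units.val_mul, Units.val_mul, up_val]
    show _ = (-1 : F) • ((!![-1, 0; 1, 1] : Matrix (Fin 2) (Fin 2) F) * !![1, 1; 0, 1] *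
      !![-1, 0; 1, 1])
    ext i j
    fin_cases i <;> fin_cases j <;> simp
    norm_num
  · have hx2 : x = -2 := eq_neg_of_add_eq_zero_left h
    let k : GL (Fin 2) F := ⟨!![1, 0; 1, 1], !![1, 0; -1, 1],
      by simp [one_fin_two], by simp [one_fin_two]⟩
    refine ⟨ProjGenLinGroup.mk k, ?_⟩
    rw [← map_inv, ← map_mul, ← map_mul]
    apply mk_eq_of_val_eq_smul (c := 1) (by simp)
    rw [wl_up_val, hx2, Units.val_mul, Units.val_mul, up_val]
    show _ = (1 : F) • ((!![1, 0; 1, 1] : Matrix (Fin 2) (Fin 2) F) * !![1, 1; 0, 1] *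
      !![1, 0; -1, 1])
    ext i j
    fin_cases i <;> fin_cases j <;> simp
    norm_num

lemma quadraticChar_sq_nonneg (a : F) : 0 ≤ quadraticChar F (a ^ 2) := by
  by_cases ha : a = 0
  · simp [ha]
  · rw [quadraticChar_sq_one' ha]; norm_num

lemma tw_wl_up_pos (hF : ringChar F ≠ 2) (hi : IsSquare (-1 : F)) (x : F) (hx : x ^ 2 = 4) :
    0 < tw (wl F * up x).1 := by
  have h2 : (2 : F) ≠ 0 := Ring.two_ne_zero hF
  obtain ⟨i, hi⟩ := hi
  have hi0 : i ≠ 0 := by
    rintro rfl
    simp at hi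
  have : (x - 2) * (x + 2) = 0 := by linear_combination hx
  rw [wl_up_val]
  unfold tw
  rcases mul_eq_zero.1 this with h | h
  · have hx2 : x = 2 := sub_eq_zero.1 h
    have e : ∀ v : Fin 2 → F, 2 * (!![0, 1; -1, -x] : Matrix (Fin 2) (Fin 2) F).trace *
        om v ((!![0, 1; -1, -x] : Matrix (Fin 2) (Fin 2) F).mulVec v) =
        (2 * (v 0 + v 1)) ^ 2 := by
      intro v
      simp [om, Matrix.mulVec, dotProduct, Fin.sum_univ_two, Matrix.trace_fin_two, hx2]; ring
    simp only [e]
    refine Finset.sum_pos' (fun v _ => quadraticChar_sq_nonneg _) ⟨![1, 0], Finset.mem_univ _, ?_⟩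
    rw [quadraticChar_sq_one' (by simp [h2])]; norm_num
  · have hx2 : x = -2 := eq_neg_of_add_eq_zero_left h
    have e : ∀ v : Fin 2 → F, 2 * (!![0, 1; -1, -x] : Matrix (Fin 2) (Fin 2) F).trace *
        om v ((!![0, 1; -1, -x] : Matrix (Fin 2) (Fin 2) F).mulVec v) =
        (2 * i * (v 0 - v 1)) ^ 2 := by
      intro v
      simp [om, Matrix.mulVec, dotProduct, Fin.sum_univ_two, Matrix.trace_fin_two, hx2]
      linear_combination (4 * (v 0 - v 1) ^ 2) * hi
    simp only [e]
    refine Finset.sum_pos' (fun v _ => quadraticChar_sq_nonneg _) ⟨![1, 0], Finset.mem_univ _, ?_⟩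
    rw [quadraticChar_sq_one' (by simp [h2, hi0])]; norm_num

/-- The twisted function is not the restriction of a cuspidal function. -/
lemma twP_not_mem_cuspSpace (hF : ringChar F ≠ 2) (hi : IsSquare (-1 : F)) :
    (fun y => (twP y.1 : ℂ)) ∉
      cuspSpace F (classClosure F (regUnip (AlgebraicClosure F))) := by
  rintro ⟨φ, hφ, hres⟩
  have key : ∀ x : F, avg φ (wl F * up x) = (Fintype.card (GL (Fin 2) F) : ℂ) *
      ((if x ^ 2 = 4 then tw (wl F * up x).1 else 0 : ℤ) : ℂ) := by
    intro x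
    split_ifs with hx
    · unfold avg
      have : ∀ h : GL (Fin 2) F, (quadraticChar F h.1.det : ℂ) *
          φ (ProjGenLinGroup.mk (h * (wl F * up x) * h⁻¹)) = (tw (wl F * up x).1 : ℂ) := by
        intro h
        have hmem : ProjGenLinGroup.mk (h * (wl F * up x) * h⁻¹) ∈
            classClosure F (regUnip (AlgebraicClosure F)) := by
          apply mem_classClosure_of_isConj
          refine (isConj_wl_up x hx).trans ?_
          rw [isConj_iff]
          exact ⟨ProjGenLinGroup.mk h, by rw [← map_inv, ← map_mul, ← map_mul]⟩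
        have h1 := hres ⟨_, hmem⟩
        simp only at h1
        rw [← h1, twP_mk, Units.val_mul, Units.val_mul, tw_conj]
        have h2 := quadraticChar_sq_one (F := F) h.det_ne_zero
        rw [← Int.cast_mul, ← mul_assoc, ← pow_two, h2, one_mul]
      simp only [this]
      simp
    · obtain ⟨c, hc, hd⟩ := exists_comm hF x hx
      rw [avg_eq_zero_of_comm φ _ c hc hd]
      simp
  have h0 := sum_avg_eq_zero hφ (wl F)
  simp only [key] at h0
  rw [← Finset.mul_sum, ← Int.cast_sum] at h0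
  have hpos : 0 < ∑ x : F, (if x ^ 2 = 4 then tw (wl F * up x).1 else 0 : ℤ) := by
    refine Finset.sum_pos' (fun x _ => ?_) ⟨2, Finset.mem_univ _, ?_⟩
    · split_ifs with hx
      · exact (tw_wl_up_pos hF hi x hx).le
      · exact le_rfl
    · have : (2 : F) ^ 2 = 4 := by norm_num
      rw [if_pos this]
      exact tw_wl_up_pos hF hi 2 this
  rcases mul_eq_zero.1 h0 with h | h
  · exact Fintype.card_ne_zero (Nat.cast_eq_zero.1 h)
  · exact hpos.ne' (Int.cast_eq_zero.1 h)

end Pool.Agent.MP_21a573_al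

end MrgPart3

-- marker of a merged file
example : 731051 + 359880 = 731051 + 359880 := rfl
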